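import Pool.Agent.R907.Part
import Pool.Agent.H914R2.KCorr

/-!
# Adjoints for the Poincare pairing
-/

open CategoryTheory AlgebraicGeometry Finset Polynomial

set_option linter.unusedSectionVars false

universe u₁ v₁ u v

namespace Pool.Agent.K4H38.SY

open Pool.Agent.H914 Pool.Agent.H447 Pool.Agent.W537 Pool.Agent.Y106.One Pool.Agent.R907
  VarClass Obj WeilCohomology

variable {k : Type u} [Field k] {𝒱 : VarClass k} {ops : CycleOps 𝒱} {X : 𝒱.Obj}
  {W : WeilCohomology.{u, v} ops}

/-- The operator `A'` is adjoint to `A` for the Poincare pairing. -/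
def Adj (W : WeilCohomology.{u, v} ops) (A A' : Module.End W.K (W.H X)) : Prop :=
  ∀ a b, W.tr X (A a * b) = W.tr X (a * A' b)

lemma Adj.mul {A A' B B' : Module.End W.K (W.H X)} (hA : Adj W A A') (hB : Adj W B B') :
    Adj W (A * B) (B' * A') := by
  intro a b
  rw [Module.End.mul_apply, hA, hB, Module.End.mul_apply]

lemma Adj.one : Adj W (1 : Module.End W.K (W.H X)) 1 := fun _ _ => rfl

lemma Adj.add {A A' B B' : Module.End W.K (W.H X)} (hA : Adj W A A') (hB : Adj W B B') :
    Adj W (A + B) (A' + B') := by
  intro a b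
  rw [LinearMap.add_apply, add_mul, map_add, hA, hB, LinearMap.add_apply, mul_add, map_add]

lemma Adj.sub {A A' B B' : Module.End W.K (W.H X)} (hA : Adj W A A') (hB : Adj W B B') :
    Adj W (A - B) (A' - B') := by
  intro a b
  rw [LinearMap.sub_apply, sub_mul, map_sub, hA, hB, LinearMap.sub_apply, mul_sub, map_sub]

lemma Adj.smul {A A' : Module.End W.K (W.H X)} (c : W.K) (hA : Adj W A A') :
    Adj W (c • A) (c • A') := by
  intro a b
  rw [LinearMap.smul_apply, smul_mul_assoc, map_smul, hA, LinearMap.smul_apply, mul_smul_comm,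
    map_smul]

lemma Adj.pow {A A' : Module.End W.K (W.H X)} (hA : Adj W A A') (m : ℕ) :
    Adj W (A ^ m) (A' ^ m) := by
  induction m with
  | zero => exact Adj.one
  | succ m ih =>
    rw [pow_succ, pow_succ']
    exact ih.mul hA

/-- The pairing as a map to the dual space. -/
noncomputable def toDual (W : WeilCohomology.{u, v} ops) (X : 𝒱.Obj) :
    W.H X →ₗ[W.K] Module.Dual W.K (W.H X) where
  toFun b := W.tr X ∘ₗ LinearMap.mulRight W.K b
  map_add' b c := by
    apply LinearMap.ext
    intro a
    change W.tr X (a * (b + c)) = W.tr X (a * b) + W.tr X (a * c)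
    rw [mul_add, map_add]
  map_smul' r b := by
    apply LinearMap.ext
    intro a
    change W.tr X (a * (r • b)) = r • W.tr X (a * b)
    rw [mul_smul_comm, map_smul]

/-- Adjoint operators have the same trace. -/
theorem Adj.trace {A A' : Module.End W.K (W.H X)} (h : Adj W A A') :
    LinearMap.trace W.K _ A' = LinearMap.trace W.K _ A := by
  have hinj : Function.Injective (toDual W X) := by
    rw [← LinearMap.ker_eq_bot, LinearMap.ker_eq_bot']
    intro b hb
    apply nondeg_right (W := W)
    intro a
    exact congrArg (fun F : Module.Dual W.K (W.H X) => F a) hb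
  set e := LinearMap.linearEquivOfInjective (toDual W X) hinj
    (Subspace.dual_finrank_eq (K := W.K) (V := W.H X)).symm with he
  have h1 : e.conj A' = Module.Dual.transpose (R := W.K) A := by
    apply LinearMap.ext
    intro l
    obtain ⟨b, rfl⟩ := e.surjective l
    rw [LinearEquiv.conj_apply_apply, LinearEquiv.symm_apply_apply]
    apply LinearMap.ext
    intro a
    exact (h a b).symm
  rw [← LinearMap.trace_conj' A' e, h1, LinearMap.trace_transpose']

lemma adj_LL {D : X.Cycles} (hD : X.IsCyc 1 D) : Adj W (LL D W) (LL D W) := by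
  intro a b
  change W.tr X (W.cl X D * a * b) = W.tr X (a * (W.cl X D * b))
  rw [W.even_comm (p := 1) (W.cl_mem hD) a, mul_assoc]

lemma adj_corr {p : ℕ} {c : W.H (X.prod X)} (hc : c ∈ W.gr _ (2 * p)) :
    Adj W (W.corr c) (W.corr (W.map (swap X X) c)) :=
  fun a b => tr_corr_swap hc a b

lemma adj_proj {i j : ℕ} (hij : i + j = 2 * X.dim) :
    Adj W (proj (W.isInternal X) i) (proj (W.isInternal X) j) := by
  intro a b
  refine gr_induction (W.isInternal X) (p := fun a =>
    W.tr X (proj (W.isInternal X) i a * b) = W.tr X (a * proj (W.isInternal X) j b)) ?_ ?_ a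
  swap
  · intro a a' ha ha'
    rw [map_add, add_mul, map_add, ha, ha', add_mul, map_add]
  intro s a ha
  refine gr_induction (W.isInternal X) (p := fun b =>
    W.tr X (proj (W.isInternal X) i a * b) = W.tr X (a * proj (W.isInternal X) j b)) ?_ ?_ b
  swap
  · intro b b' hb hb'
    rw [mul_add, map_add, hb, hb', map_add, mul_add, map_add]
  intro t b hb
  by_cases hs : s = i
  · subst hs
    rw [proj_same _ ha]
    by_cases ht : t = j
    · subst ht
      rw [proj_same _ hb]
    · rw [proj_ne _ hb ht, mul_zero, map_zero]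
      exact W.tr_eq_zero (W.mul_mem ha hb) (by omega)
  · rw [proj_ne _ ha hs, zero_mul, map_zero]
    by_cases ht : t = j
    · subst ht
      rw [proj_same _ hb]
      exact (W.tr_eq_zero (W.mul_mem ha hb) (by omega)).symm
    · rw [proj_ne _ hb ht, mul_zero, map_zero]

lemma swap_swap (c : W.H (X.prod X)) : W.map (swap X X) (W.map (swap X X) c) = c := by
  refine W.kunneth_induction (p := fun c => W.map (swap X X) (W.map (swap X X) c) = c) ?_ ?_ c
  · intro a b ha hb
    rw [map_add, map_add, ha, hb]
  · intro i j a _ b _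
    have e1 : ∀ a : W.H X, W.map (swap X X) (W.map (fst X X) a) = W.map (snd X X) a := fun a => by
      rw [← W.map_comp, swap_fst]
    have e2 : ∀ a : W.H X, W.map (swap X X) (W.map (snd X X) a) = W.map (fst X X) a := fun a => by
      rw [← W.map_comp, swap_snd]
    rw [map_mul, map_mul, e1, e2, e2, e1]

/-- The multiplication by a power of the divisor shifts the projectors. -/
lemma proj_LL_pow {D : X.Cycles} (hD : X.IsCyc 1 D) {i : ℕ} (hi : i ≤ X.dim) :
    proj (W.isInternal X) (2 * X.dim - i) * LL D W ^ (X.dim - i) =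
      LL D W ^ (X.dim - i) * proj (W.isInternal X) i := by
  have hmem : ∀ (m s : ℕ) (a : W.H X), a ∈ W.gr X s → (LL D W ^ m) a ∈ W.gr X (s + 2 * m) := by
    intro m s a ha
    induction m with
    | zero => simpa using ha
    | succ m ih =>
      rw [pow_succ', Module.End.mul_apply]
      have h1 := W.mul_mem (W.cl_mem hD) ih
      rwa [show 2 * 1 + (s + 2 * m) = s + 2 * (m + 1) by ring] at h1
  apply LinearMap.ext
  intro a
  refine gr_induction (W.isInternal X) (p := fun a =>
    (proj (W.isInternal X) (2 * X.dim - i) * LL D W ^ (X.dim - i)) a =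
      (LL D W ^ (X.dim - i) * proj (W.isInternal X) i) a) ?_ ?_ a
  · intro s a ha
    rw [Module.End.mul_apply, Module.End.mul_apply]
    have h1 := hmem (X.dim - i) s a ha
    by_cases hs : s = i
    · subst hs
      rw [proj_same _ ha]
      rw [show s + 2 * (X.dim - s) = 2 * X.dim - s by omega] at h1
      rw [proj_same _ h1]
    · rw [proj_ne _ ha hs, map_zero, proj_ne _ h1 (by omega)]
  · intro a b ha hb
    rw [map_add, map_add, ha, hb]

/-- **The trace form and the transposition of cycles.** -/
theorem trace_swap {D : X.Cycles} (hD : X.IsCyc 1 D) {i : ℕ} (hi : i ≤ X.dim)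
    {c d : W.H (X.prod X)} (hc : c ∈ W.gr _ (2 * i)) (hd : d ∈ W.gr _ (2 * i)) :
    LinearMap.trace W.K _ (W.corr (W.map (swap X X) c) * LL D W ^ (X.dim - i) *
        (W.corr d * LL D W ^ (X.dim - i)) * proj (W.isInternal X) i) =
      LinearMap.trace W.K _ (W.corr (W.map (swap X X) d) * LL D W ^ (X.dim - i) *
        (W.corr c * LL D W ^ (X.dim - i)) * proj (W.isInternal X) i) := by
  set P := proj (W.isInternal X) i with hP
  set P' := proj (W.isInternal X) (2 * X.dim - i) with hP'
  set L := LL D W ^ (X.dim - i) with hL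
  have hPL : P' * L = L * P := proj_LL_pow hD hi
  have hadj : Adj W (W.corr (W.map (swap X X) c) * L * (W.corr d * L) * P)
      (P' * (L * W.corr (W.map (swap X X) d) * (L * W.corr c))) := by
    have h1 : Adj W P P' := adj_proj (by omega)
    have h2 : Adj W L L := (adj_LL hD).pow _
    have h3 : Adj W (W.corr d) (W.corr (W.map (swap X X) d)) := adj_corr hd
    have h4 : Adj W (W.corr (W.map (swap X X) c)) (W.corr c) := by
      have := adj_corr (W := W) (W.map_mem (swap X X) hc)
      rwa [swap_swap] at this
    exact ((h4.mul h2).mul (h3.mul h2)).mul h1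
  rw [← hadj.trace]
  have e1 : P' * (L * W.corr (W.map (swap X X) d) * (L * W.corr c)) =
      (L * P) * (W.corr (W.map (swap X X) d) * L * W.corr c) := by
    rw [← hPL]
    simp only [mul_assoc]
  rw [e1, LinearMap.trace_mul_comm]
  simp only [mul_assoc]

/-- The trace of the transposed operator. -/
theorem trace_swap_one {D : X.Cycles} (hD : X.IsCyc 1 D) {i : ℕ} (hi : i ≤ X.dim)
    {c : W.H (X.prod X)} (hc : c ∈ W.gr _ (2 * i)) :
    LinearMap.trace W.K _ (W.corr (W.map (swap X X) c) * LL D W ^ (X.dim - i) *
        proj (W.isInternal X) i) =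
      LinearMap.trace W.K _ (W.corr c * LL D W ^ (X.dim - i) * proj (W.isInternal X) i) := by
  set P := proj (W.isInternal X) i with hP
  set P' := proj (W.isInternal X) (2 * X.dim - i) with hP'
  set L := LL D W ^ (X.dim - i) with hL
  have hPL : P' * L = L * P := proj_LL_pow hD hi
  have h1 : Adj W P P' := adj_proj (by omega)
  have h2 : Adj W L L := (adj_LL hD).pow _
  have h4 : Adj W (W.corr (W.map (swap X X) c)) (W.corr c) := by
    have := adj_corr (W := W) (W.map_mem (swap X X) hc)
    rwa [swap_swap] at this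
  have hadj := (h4.mul h2).mul h1
  rw [← hadj.trace, ← mul_assoc, hPL, LinearMap.trace_mul_comm]
  simp only [mul_assoc]

end Pool.Agent.K4H38.SY
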