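import Pool.Agent.R907.PartDefs

/-!
# The symmetric maximal factor: definitions
-/

open CategoryTheory AlgebraicGeometry Polynomial

set_option linter.checkUnivs false

universe u₁ v₁ u v

namespace Pool.Agent.K4H38.SY

open Pool.Agent.H914 Pool.Agent.Y106.One VarClass Obj WeilCohomology

/-- The functional equation `x ^ d · g(c / x) = g(0) · g(x)`, where `d` is the degree of `g`. (For
`g(0) ≠ 0` it says that the complex roots of `g` are permuted by `x ↦ c / x`, with
multiplicities.) -/
def FunctionalEquation (g : ℚ[X]) (c : ℚ) : Prop :=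
  ∀ x : ℚ, x ≠ 0 → x ^ g.natDegree * g.eval (c / x) = g.eval 0 * g.eval x

section Alg

variable {K : Type*} [Field K] {V : Type*}

/-- The operator `E` is self-adjoint on `U` for the form `tr(a · T(b))`. -/
def SelfAdjointOn [Ring V] [Algebra K V] (U : Submodule K V) (tr : V →ₗ[K] K)
    (T E : Module.End K V) : Prop :=
  ∀ a ∈ U, ∀ b ∈ U, tr (E a * T b) = tr (a * T (E b))

/-- The operator `F` corresponds to `F'` under the isomorphism `s`. -/
def Corresponds [Ring V] [Algebra K V] {K' B : Type*} [Field K'] [Ring B] [Algebra K' B]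
    (s : V ≃+* B) (F : Module.End K V) (F' : B →ₐ[K'] B) : Prop :=
  ∀ a, s (F a) = F' (s a)

variable [AddCommGroup V] [Module K V]

/-- The operator `F ^ N` maps `U` to itself, with the characteristic polynomial `P`. -/
def PowCharpoly [CharZero K] [Module.Finite K V] (U : Submodule K V) (F : Module.End K V) (N : ℕ)
    (P : ℚ[X]) : Prop :=
  ∃ h : ∀ a ∈ U, (F ^ N) a ∈ U, ((F ^ N).restrict h).charpoly = P.map (algebraMap ℚ K)

/-- The operators `E` and `F ^ N` commute, the characteristic polynomial of `F ^ N` on the image of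
`U` under `E` is `g`, of degree `r`, it divides the one on `U` in the ring of rational polynomials,
and it satisfies the functional equation for `x ↦ q ^ (N i) / x`. -/
def CutsOut [CharZero K] [Module.Finite K V] (U : Submodule K V) (E F : Module.End K V)
    (q i r N : ℕ) (g : ℚ[X]) : Prop :=
  Commute E (F ^ N) ∧ g.natDegree = r ∧ PowCharpoly (U.map E) F N g ∧
    (∃ h : ℚ[X], PowCharpoly U F N (g * h)) ∧ FunctionalEquation g ((q : ℚ) ^ (N * i))

/-- `CutsOut` holds for all multiples `N` of a number `m ≥ 1`, for the polynomials `g N`. -/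
def CutsOutAll [CharZero K] [Module.Finite K V] (U : Submodule K V) (E F : Module.End K V)
    (q i r : ℕ) (g : ℕ → ℚ[X]) : Prop :=
  ∃ m ≥ 1, ∀ e ≥ 1, CutsOut U E F q i r (m * e) (g (m * e))

/-- For all `N ≥ 1` every factorisation `g h` over the rational numbers of the characteristic
polynomial of `F ^ N` on `U`, such that `g` satisfies the functional equation for
`x ↦ q ^ (N i) / x`, is trivial: the degree of `g` is zero or the dimension of `U`. -/
def NoFactor [CharZero K] [Module.Finite K V] (U : Submodule K V) (F : Module.End K V)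
    (q i : ℕ) : Prop :=
  ∀ N ≥ 1, ∀ g h : ℚ[X], PowCharpoly U F N (g * h) →
    FunctionalEquation g ((q : ℚ) ^ (N * i)) →
      g.natDegree = 0 ∨ g.natDegree = Module.finrank K U

end Alg

end Pool.Agent.K4H38.SY
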