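import Mathlib

/-!
# Similitudes and alternating forms
-/

open Polynomial Finset

set_option linter.unusedSectionVars false

namespace Pool.Agent.K4H38.SY

section

variable {K : Type*} [Field K] [CharZero K] {V : Type*} [AddCommGroup V] [Module K V]
  [Module.Finite K V]

/-- The Gram matrix. -/
noncomputable def gram {ι : Type*} (b : Module.Basis ι K V) (β : LinearMap.BilinForm K V) : Matrix ι ι K :=
  fun i j => β (b i) (b j)

lemma gram_det_ne_zero {ι : Type*} [Fintype ι] [DecidableEq ι] (b : Module.Basis ι K V)
    (β : LinearMap.BilinForm K V) (h : ∀ a, (∀ c, β c a = 0) → a = 0) : (gram b β).det ≠ 0 := by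
  intro h0
  obtain ⟨v, hv, hv0⟩ := Matrix.exists_mulVec_eq_zero_iff.2 h0
  obtain ⟨a, ha⟩ : ∃ a, a = ∑ j, v j • b j := ⟨_, rfl⟩
  have h1 : ∀ i, β (b i) a = 0 := by
    intro i
    have h2 := congrFun hv0 i
    rw [Matrix.mulVec, dotProduct] at h2
    rw [ha, map_sum]
    simp only [map_smul, smul_eq_mul]
    rw [Pi.zero_apply] at h2
    refine Eq.trans ?_ h2
    exact sum_congr rfl fun j _ => mul_comm _ _
  have h3 : a = 0 := by
    apply h
    intro c
    have h4 : ∀ x, β x a = ∑ i, b.repr x i • β (b i) a := by
      intro x
      conv_lhs => rw [← b.sum_repr x]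
      rw [map_sum, LinearMap.sum_apply]
      exact sum_congr rfl fun i _ => by rw [map_smul, LinearMap.smul_apply]
    rw [h4]
    exact sum_eq_zero fun i _ => by rw [h1, smul_zero]
  apply hv
  funext j
  have h4 := congrArg (fun x => b.repr x j) h3
  beta_reduce at h4
  rw [ha, Module.Basis.repr_sum_self] at h4
  simpa using h4

/-- The dimension of a space with a nondegenerate alternating form is even. -/
theorem even_finrank (β : LinearMap.BilinForm K V) (halt : ∀ a c, β a c = - β c a)
    (h : ∀ a, (∀ c, β c a = 0) → a = 0) : Even (Module.finrank K V) := by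
  set b := Module.finBasis K V with hb
  have h0 := gram_det_ne_zero b β h
  have h1 : (gram b β).transpose = - gram b β := by
    ext i j
    exact halt _ _
  have h2 := congrArg Matrix.det h1
  rw [Matrix.det_transpose, Matrix.det_neg, Fintype.card_fin] at h2
  by_contra hodd
  rw [Nat.not_even_iff_odd] at hodd
  rw [hodd.neg_one_pow, neg_one_mul] at h2
  apply h0
  have h3 : (2 : K) * (gram b β).det = 0 := by linear_combination h2
  rcases mul_eq_zero.1 h3 with h4 | h4
  · exact absurd h4 two_ne_zero
  · exact h4

/-- **The functional equation of the characteristic polynomial of a similitude.** -/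
theorem functional (β : LinearMap.BilinForm K V) (h : ∀ a, (∀ c, β c a = 0) → a = 0)
    (A : Module.End K V) {c : K} (hA : ∀ a b, β (A a) (A b) = c * β a b) {x : K} (hx : x ≠ 0) :
    x ^ (Module.finrank K V) * A.charpoly.eval (c / x) = A.charpoly.eval 0 * A.charpoly.eval x := by
  classical
  set b := Module.finBasis K V with hb
  set d := Module.finrank K V with hd
  set G := gram b β with hG
  have h0 : G.det ≠ 0 := gram_det_ne_zero b β h
  set P := LinearMap.toMatrix b b A with hP
  have hcp : A.charpoly = P.charpoly := (LinearMap.charpoly_toMatrix A b).symm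
  have hAb : ∀ i, A (b i) = ∑ k, P k i • b k := by
    intro i
    conv_lhs => rw [← b.sum_repr (A (b i))]
    refine sum_congr rfl fun k _ => ?_
    rw [hP, LinearMap.toMatrix_apply]
  have hPGP : P.transpose * G * P = c • G := by
    ext i j
    have h1 := hA (b i) (b j)
    rw [hAb, hAb] at h1
    simp only [map_sum, LinearMap.sum_apply, map_smul, LinearMap.smul_apply, smul_eq_mul] at h1
    rw [Matrix.smul_apply, smul_eq_mul]
    change _ = c * β (b i) (b j)
    rw [← h1, Matrix.mul_apply]
    refine sum_congr rfl fun l _ => ?_
    rw [Matrix.mul_apply, sum_mul, mul_sum]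
    refine sum_congr rfl fun k _ => ?_
    change P k i * β (b k) (b l) * P l j = P l j * (P k i * β (b k) (b l))
    ring
  have h2 : P.transpose * G * (P - Matrix.scalar (Fin d) x) =
      (Matrix.scalar (Fin d) c - x • P.transpose) * G := by
    rw [mul_sub, hPGP, sub_mul]
    congr 1
    · ext i j
      simp [Matrix.scalar_apply, Matrix.diagonal_mul]
    · ext i j
      simp [Matrix.scalar_apply, Matrix.mul_diagonal, mul_comm]
  have h3 := congrArg Matrix.det h2
  rw [Matrix.det_mul, Matrix.det_mul, Matrix.det_mul, Matrix.det_transpose] at h3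
  have h4 : P.det * (P - Matrix.scalar (Fin d) x).det =
      (Matrix.scalar (Fin d) c - x • P.transpose).det := by
    apply mul_right_cancel₀ h0
    linear_combination h3
  have h5 : (Matrix.scalar (Fin d) c - x • P.transpose).det =
      x ^ d * (Matrix.scalar (Fin d) (c / x) - P).det := by
    have h51 := Matrix.det_smul (Matrix.scalar (Fin d) (c / x) - P) x
    rw [Fintype.card_fin] at h51
    rw [← Matrix.det_transpose, ← h51]
    congr 1
    ext i j
    simp [Matrix.scalar_apply, Matrix.diagonal_apply, Matrix.transpose_apply]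
    by_cases hij : i = j
    · subst hij
      simp
      field_simp
    · have hji : ¬ j = i := fun h => hij h.symm
      simp [hij, hji]
  have h6 : P.charpoly.eval x = (-1) ^ d * (P - Matrix.scalar (Fin d) x).det := by
    rw [Matrix.eval_charpoly, ← neg_sub, Matrix.det_neg, Fintype.card_fin]
  have h7 : P.charpoly.eval 0 = (-1) ^ d * P.det := by
    rw [Matrix.eval_charpoly, map_zero, zero_sub, Matrix.det_neg, Fintype.card_fin]
  rw [hcp, h6, h7, Matrix.eval_charpoly, ← h5, ← h4]
  have h8 : ((-1 : K) ^ d) * (-1) ^ d = 1 := by rw [← mul_pow]; simp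
  linear_combination (- (P.det * (P - Matrix.scalar (Fin d) x).det)) * h8

end

end Pool.Agent.K4H38.SY
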