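import Mathlib

/-!
# Newton's identities for endomorphisms, in characteristic zero
-/

open Polynomial Finset

set_option linter.unusedSectionVars false

namespace Pool.Agent.K4H38.SY

section Matrix

variable {K : Type*} [Field K] [CharZero K] {n : Type*} [Fintype n] [DecidableEq n]

lemma eval_det_one_add (N : Matrix n n K) (y : K) :
    (Matrix.det (1 + (X : K[X]) • N.map C)).eval y = (1 + y • N).det := by
  rw [← coe_evalRingHom, RingHom.map_det]
  congr 1
  ext i j
  simp [Matrix.one_apply]
  split_ifs <;> simp [mul_comm]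

/-- The logarithmic derivative of the characteristic polynomial. -/
lemma eval_derivative_charpoly (M : Matrix n n K) {x : K} {S : Matrix n n K} (hS : (Matrix.scalar n x - M) * S = 1) :
    M.charpoly.derivative.eval x = M.charpoly.eval x * S.trace := by
  have hdet : ∀ y : K, M.charpoly.eval (x + y) =
      M.charpoly.eval x * (1 + y • S).det := by
    intro y
    rw [Matrix.eval_charpoly, Matrix.eval_charpoly, ← Matrix.det_mul]
    congr 1
    have h1 : (Matrix.scalar n (x + y) - M) = (Matrix.scalar n x - M) + y • 1 := by
      ext i j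
      simp [Matrix.scalar_apply, Matrix.diagonal_apply, Matrix.one_apply]
      split_ifs <;> ring
    rw [h1, mul_add, mul_one, Matrix.mul_smul, hS]
  have hpoly : M.charpoly.comp (X + C x) = C (M.charpoly.eval x) *
      Matrix.det (1 + (X : K[X]) • S.map C) := by
    apply Polynomial.funext
    intro y
    rw [eval_comp, eval_add, eval_X, eval_C, add_comm, hdet, eval_mul, eval_C, eval_det_one_add]
  have h2 := congrArg (fun p : K[X] => p.derivative.eval 0) hpoly
  beta_reduce at h2
  rw [derivative_comp, derivative_mul, derivative_C, zero_mul, zero_add, eval_mul, eval_mul,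
    Matrix.derivative_det_one_add_X_smul, eval_C, eval_comp] at h2
  simpa using h2

/-- The divided difference of the characteristic polynomial. -/
lemma resolvent (M : Matrix n n K) (x : K) :
    (Matrix.scalar n x - M) * (∑ m ∈ range (M.charpoly.natDegree + 1), M.charpoly.coeff m •
      ∑ i ∈ range m, (Matrix.scalar n x) ^ i * M ^ (m - 1 - i)) =
      M.charpoly.eval x • 1 := by
  have hcom : Commute (Matrix.scalar n x) M := Matrix.scalar_commute x (fun _ => Commute.all _ _) M
  rw [mul_sum]
  have h1 : ∀ m ∈ range (M.charpoly.natDegree + 1), (Matrix.scalar n x - M) *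
      (M.charpoly.coeff m • ∑ i ∈ range m, (Matrix.scalar n x) ^ i * M ^ (m - 1 - i)) =
      M.charpoly.coeff m • (x ^ m • (1 : Matrix n n K)) - M.charpoly.coeff m • M ^ m := by
    intro m _
    rw [Matrix.mul_smul, hcom.mul_geom_sum₂, smul_sub]
    congr 2
    rw [← map_pow]
    ext i j
    simp [Matrix.scalar_apply, Matrix.diagonal_apply, Matrix.one_apply]
  rw [sum_congr rfl h1, sum_sub_distrib]
  have h2 : ∑ m ∈ range (M.charpoly.natDegree + 1), M.charpoly.coeff m • M ^ m = 0 := by
    rw [← Polynomial.aeval_eq_sum_range, Matrix.aeval_self_charpoly]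
  rw [h2, sub_zero, Polynomial.eval_eq_sum_range, Finset.sum_smul]
  exact sum_congr rfl fun m _ => by rw [smul_smul]

/-- **Newton's identities**, as an identity between polynomials. -/
theorem derivative_charpoly (M : Matrix n n K) :
    M.charpoly.derivative = ∑ m ∈ range (M.charpoly.natDegree + 1),
      ∑ i ∈ range m, C (M.charpoly.coeff m * (M ^ (m - 1 - i)).trace) * X ^ i := by
  have hmonic := M.charpoly_monic
  have hinf : ∀ x, M.charpoly.eval x ≠ 0 → M.charpoly.derivative.eval x =
      (∑ m ∈ range (M.charpoly.natDegree + 1),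
        ∑ i ∈ range m, C (M.charpoly.coeff m * (M ^ (m - 1 - i)).trace) * X ^ i).eval x := by
    intro x hx
    set B := ∑ m ∈ range (M.charpoly.natDegree + 1), M.charpoly.coeff m •
      ∑ i ∈ range m, (Matrix.scalar n x) ^ i * M ^ (m - 1 - i) with hB
    have h1 : (Matrix.scalar n x - M) * ((M.charpoly.eval x)⁻¹ • B) = 1 := by
      rw [Matrix.mul_smul, hB, resolvent, smul_smul, inv_mul_cancel₀ hx, one_smul]
    rw [eval_derivative_charpoly M h1, Matrix.trace_smul, smul_eq_mul, ← mul_assoc,
      mul_inv_cancel₀ hx, one_mul, hB, Matrix.trace_sum, eval_finsetSum]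
    refine sum_congr rfl fun m _ => ?_
    rw [Matrix.trace_smul, Matrix.trace_sum, smul_eq_mul, mul_sum, eval_finsetSum]
    refine sum_congr rfl fun i _ => ?_
    rw [eval_mul, eval_C, eval_pow, eval_X, ← map_pow]
    have h2 : (Matrix.scalar n (x ^ i)) * M ^ (m - 1 - i) = x ^ i • M ^ (m - 1 - i) := by
      ext a b
      simp [Matrix.scalar_apply, Matrix.diagonal_mul]
    rw [h2, Matrix.trace_smul, smul_eq_mul]
    ring
  rw [← sub_eq_zero]
  by_contra hne
  set p := M.charpoly.derivative - ∑ m ∈ range (M.charpoly.natDegree + 1),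
      ∑ i ∈ range m, C (M.charpoly.coeff m * (M ^ (m - 1 - i)).trace) * X ^ i with hp
  have h3 : p * M.charpoly = 0 := by
    apply Polynomial.funext
    intro x
    rw [eval_mul, eval_zero]
    by_cases hx : M.charpoly.eval x = 0
    · rw [hx, mul_zero]
    · rw [hp, eval_sub, hinf x hx, sub_self, zero_mul]
  rcases mul_eq_zero.1 h3 with h4 | h4
  · exact hne h4
  · exact hmonic.ne_zero h4

/-- Newton's identities for the coefficients. -/
theorem newton_coeff (M : Matrix n n K) {k : ℕ} (hk : k + 1 ≤ Fintype.card n) :
    ((k : K) + 1) * M.charpoly.coeff (Fintype.card n - (k + 1)) =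
      - ∑ j ∈ range (k + 1), M.charpoly.coeff (Fintype.card n - j) *
        (M ^ (k + 1 - j)).trace := by
  set d := Fintype.card n with hd
  have hnd : M.charpoly.natDegree = d := M.charpoly_natDegree_eq_dim
  by_cases hkd : k + 1 = d
  · -- the constant coefficient
    have h1 := congrArg Matrix.trace (Matrix.aeval_self_charpoly M)
    rw [Polynomial.aeval_eq_sum_range, Matrix.trace_sum, Matrix.trace_zero, hnd] at h1
    simp only [Matrix.trace_smul, smul_eq_mul] at h1
    rw [Finset.sum_range_succ', pow_zero, Matrix.trace_one] at h1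
    have h2 : ∑ j ∈ range (k + 1), M.charpoly.coeff (d - j) * (M ^ (k + 1 - j)).trace =
        ∑ m ∈ range d, M.charpoly.coeff (m + 1) * (M ^ (m + 1)).trace := by
      rw [hkd, ← Finset.sum_range_reflect]
      refine sum_congr rfl fun j hj => ?_
      rw [mem_range] at hj
      rw [show d - (d - 1 - j) = j + 1 by omega]
    rw [h2, hkd, Nat.sub_self]
    have h3 : (k : K) + 1 = (d : K) := by rw [← hkd]; push_cast; ring
    rw [h3]
    rw [← hd] at h1
    linear_combination h1
  · obtain ⟨a, ha⟩ : ∃ a, d = k + 1 + (a + 1) := ⟨d - (k + 1) - 1, by omega⟩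
    have h1 := congrArg (fun p : K[X] => p.coeff a) (derivative_charpoly M)
    beta_reduce at h1
    rw [coeff_derivative, finsetSum_coeff, hnd] at h1
    simp only [finsetSum_coeff, coeff_C_mul, coeff_X_pow] at h1
    have h2 : ∀ m ∈ range (d + 1), ∑ i ∈ range m, M.charpoly.coeff m *
        (M ^ (m - 1 - i)).trace * (if a = i then 1 else 0) =
        if a < m then M.charpoly.coeff m * (M ^ (m - 1 - a)).trace else 0 := by
      intro m _
      simp only [mul_ite, mul_one, mul_zero]
      rw [Finset.sum_ite_eq]
      simp only [mem_range]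
    rw [sum_congr rfl h2, ← Finset.sum_range_reflect] at h1
    have h3 : ∀ j ∈ range (d + 1), (if a < d + 1 - 1 - j then M.charpoly.coeff (d + 1 - 1 - j) *
        (M ^ (d + 1 - 1 - j - 1 - a)).trace else 0) =
        if j < k + 2 then M.charpoly.coeff (d - j) * (M ^ (k + 1 - j)).trace else 0 := by
      intro j hj
      rw [mem_range] at hj
      by_cases hjk : j < k + 2
      · rw [if_pos hjk, if_pos (by omega), show d + 1 - 1 - j = d - j by omega,
          show d - j - 1 - a = k + 1 - j by omega]
      · rw [if_neg hjk, if_neg (by omega)]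
    rw [sum_congr rfl h3, ← Finset.sum_filter] at h1
    have h4 : (range (d + 1)).filter (fun j => j < k + 2) = range (k + 2) := by
      ext j
      simp only [mem_filter, mem_range]
      omega
    rw [h4, Finset.sum_range_succ, Nat.sub_self, pow_zero, Matrix.trace_one, ← hd,
      show d - (k + 1) = a + 1 by omega] at h1
    rw [show d - (k + 1) = a + 1 by omega]
    have h5 : (d : K) = k + 1 + (a + 1) := by rw [ha]; push_cast; ring
    rw [h5] at h1
    linear_combination -h1

end Matrix

/-- The coefficients of the polynomial with given power sums of the roots. -/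
noncomputable def newtonCoeff (t : ℕ → ℚ) : ℕ → ℚ
  | 0 => 1
  | k + 1 => - (∑ j : Fin (k + 1), newtonCoeff t j.1 * t (k + 1 - j.1)) / (k + 1)
  decreasing_by exact j.2

/-- The monic polynomial of degree `d` with given power sums of the roots. -/
noncomputable def newtonPoly (d : ℕ) (t : ℕ → ℚ) : ℚ[X] :=
  ∑ k ∈ range (d + 1), C (newtonCoeff t k) * X ^ (d - k)

lemma newtonPoly_coeff (d : ℕ) (t : ℕ → ℚ) {k : ℕ} (hk : k ≤ d) :
    (newtonPoly d t).coeff (d - k) = newtonCoeff t k := by
  rw [newtonPoly, finsetSum_coeff, Finset.sum_eq_single k]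
  · rw [coeff_C_mul, coeff_X_pow, if_pos rfl, mul_one]
  · intro j hj hjk
    rw [mem_range] at hj
    rw [coeff_C_mul, coeff_X_pow, if_neg (by omega), mul_zero]
  · intro h
    rw [mem_range] at h
    omega

lemma newtonPoly_coeff_large (d : ℕ) (t : ℕ → ℚ) {m : ℕ} (hm : d < m) :
    (newtonPoly d t).coeff m = 0 := by
  rw [newtonPoly, finsetSum_coeff]
  refine Finset.sum_eq_zero fun j _ => ?_
  rw [coeff_C_mul, coeff_X_pow, if_neg (by omega), mul_zero]

/-- **The characteristic polynomial from the traces of the powers.** -/
theorem charpoly_eq_newtonPoly {K : Type*} [Field K] [CharZero K] {V : Type*} [AddCommGroup V]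
    [Module K V] [Module.Finite K V] (A : Module.End K V) {t : ℕ → ℚ}
    (h : ∀ k, LinearMap.trace K V (A ^ k) = t k) :
    A.charpoly = (newtonPoly (Module.finrank K V) t).map (algebraMap ℚ K) := by
  classical
  set b := Module.finBasis K V with hb
  set d := Module.finrank K V with hd
  set M := LinearMap.toMatrix b b A with hM
  have hcard : Fintype.card (Fin d) = d := Fintype.card_fin d
  have htr : ∀ k, (M ^ k).trace = t k := by
    intro k
    rw [hM, LinearMap.toMatrix_pow, ← LinearMap.trace_eq_matrix_trace, h k]
  have hcp : A.charpoly = M.charpoly := (LinearMap.charpoly_toMatrix A b).symm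
  have key : ∀ k, k ≤ d → M.charpoly.coeff (d - k) = algebraMap ℚ K (newtonCoeff t k) := by
    intro k
    induction k using Nat.strong_induction_on with
    | _ k ih =>
      intro hk
      rcases k with _ | k
      · rw [Nat.sub_zero, newtonCoeff, map_one]
        have h1 := M.charpoly_monic
        rw [Polynomial.Monic, Polynomial.leadingCoeff, M.charpoly_natDegree_eq_dim, hcard] at h1
        exact h1
      · have h1 := newton_coeff M (k := k) (by rw [hcard]; exact hk)
        rw [hcard] at h1
        have h2 : ∀ j ∈ range (k + 1), M.charpoly.coeff (d - j) * (M ^ (k + 1 - j)).trace =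
            algebraMap ℚ K (newtonCoeff t j * t (k + 1 - j)) := by
          intro j hj
          rw [mem_range] at hj
          rw [ih j (by omega) (by omega), htr, map_mul]
          rfl
        rw [sum_congr rfl h2, ← map_sum] at h1
        have h3 : (k : K) + 1 ≠ 0 := by exact_mod_cast Nat.succ_ne_zero k
        apply mul_left_cancel₀ h3
        rw [h1, newtonCoeff, ← Finset.sum_range (fun j => newtonCoeff t j * t (k + 1 - j)),
          map_div₀, map_neg, map_add, map_one, map_natCast]
        field_simp
  rw [hcp]
  ext m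
  rw [coeff_map]
  by_cases hm : m ≤ d
  · obtain ⟨k, hk, rfl⟩ : ∃ k, k ≤ d ∧ m = d - k := ⟨d - m, by omega, by omega⟩
    rw [key k hk, newtonPoly_coeff d t hk]
  · rw [newtonPoly_coeff_large d t (by omega), map_zero]
    apply coeff_eq_zero_of_natDegree_lt
    rw [M.charpoly_natDegree_eq_dim, hcard]
    omega

end Pool.Agent.K4H38.SY
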