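import Pool.Agent.K4H38.SY.Unit
import Pool.Agent.K4H38.SY.Defs
import Pool.Agent.K4H38.SY.Newton
import Pool.Agent.K4H38.SY.Form
import Pool.Agent.R907.Crit
import Pool.Agent.H914R2.GFrob

/-!
# Endomorphisms acting like a Frobenius on the cycles of the square
-/

open CategoryTheory AlgebraicGeometry Finset Polynomial

set_option linter.unusedSectionVars false

universe u₁ v₁ u v

namespace Pool.Agent.K4H38.SY

open Pool.Agent.H914 Pool.Agent.H447 Pool.Agent.W537 Pool.Agent.Y106.One Pool.Agent.R907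
  VarClass Obj WeilCohomology

section Lin

variable {K : Type*} [Field K] [CharZero K] {V : Type*} [AddCommGroup V] [Module K V]
  [Module.Finite K V]

/-- The characteristic polynomial and an idempotent. -/
lemma charpoly_split {U : Submodule K V} {E F : Module.End K V} (hE : ∀ a ∈ U, E a ∈ U)
    (hid : ∀ a ∈ U, E (E a) = E a) (hF : ∀ a ∈ U, F a ∈ U)
    (h1 : ∀ a ∈ U.map E, F a ∈ U.map E)
    (h2 : ∀ a ∈ U ⊓ LinearMap.ker E, F a ∈ U ⊓ LinearMap.ker E) :
    (F.restrict hF).charpoly = (F.restrict h1).charpoly * (F.restrict h2).charpoly := by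
  have hle1 : U.map E ≤ U := by
    rintro _ ⟨a, ha, rfl⟩
    exact hE a ha
  have hle2 : U ⊓ LinearMap.ker E ≤ U := inf_le_left
  set φ := (Submodule.inclusion hle1).coprod (Submodule.inclusion hle2) with hφ
  have hφa : ∀ x : (U.map E) × ↥(U ⊓ LinearMap.ker E), ((φ x : U) : V) = x.1 + x.2 := by
    intro x
    rw [hφ, LinearMap.coprod_apply]
    rfl
  have hidim : ∀ x ∈ U.map E, E x = x := by
    rintro _ ⟨a, ha, rfl⟩
    exact hid a ha
  have hinj : Function.Injective φ := by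
    rw [← LinearMap.ker_eq_bot, LinearMap.ker_eq_bot']
    rintro ⟨x, y⟩ hxy
    have h3 := congrArg (fun t : U => (t : V)) hxy
    beta_reduce at h3
    rw [hφa] at h3
    have h3' : (x : V) + (y : V) = 0 := h3
    have hy : E (y : V) = 0 := y.2.2
    have h4 : E ((x : V) + (y : V)) = 0 := by rw [h3', map_zero]
    rw [map_add, hy, add_zero, hidim _ x.2] at h4
    rw [h4, zero_add] at h3'
    exact Prod.ext (Subtype.ext h4) (Subtype.ext h3')
  have hsurj : Function.Surjective φ := by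
    intro a
    refine ⟨(⟨E a, ⟨a, a.2, rfl⟩⟩, ⟨(a : V) - E a,
      ⟨Submodule.sub_mem _ a.2 (hE a a.2), ?_⟩⟩), ?_⟩
    · change E ((a : V) - E a) = 0
      rw [map_sub, hid a a.2, sub_self]
    · apply Subtype.ext
      rw [hφa]
      change E (a : V) + ((a : V) - E a) = a
      abel
  set e := LinearEquiv.ofBijective φ ⟨hinj, hsurj⟩ with he
  have hconj : e.conj ((F.restrict h1).prodMap (F.restrict h2)) = F.restrict hF := by
    apply LinearMap.ext
    intro a
    obtain ⟨x, rfl⟩ := e.surjective a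
    rw [LinearEquiv.conj_apply_apply, LinearEquiv.symm_apply_apply]
    apply Subtype.ext
    have e1 : ((e (((F.restrict h1).prodMap (F.restrict h2)) x) : U) : V) =
        F x.1 + F x.2 := hφa _
    have e2 : ((e x : U) : V) = x.1 + x.2 := hφa _
    rw [e1]
    change F x.1 + F x.2 = F ((e x : U) : V)
    rw [e2, map_add]
  rw [← hconj, LinearEquiv.charpoly_conj, LinearMap.charpoly_prodMap]

lemma restrict_pow {U : Submodule K V} {A : Module.End K V} (hA : ∀ x ∈ U, A x ∈ U) (m : ℕ)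
    (hm : ∀ x ∈ U, (A ^ m) x ∈ U) : (A.restrict hA) ^ m = (A ^ m).restrict hm := by
  have key : ∀ m : ℕ, ∀ x : U, (((A.restrict hA) ^ m) x : V) = (A ^ m) x := by
    intro m
    induction m with
    | zero => intro x; rfl
    | succ m ih =>
      intro x
      rw [pow_succ', pow_succ', Module.End.mul_apply, Module.End.mul_apply, ← ih x]
      rfl
  apply LinearMap.ext
  intro x
  apply Subtype.ext
  exact key m x

/-- Traces on the image of a projector. -/
lemma trace_restrict_image {U : Submodule K V} {P Q G : Module.End K V}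
    (hQ : ∀ x, Q (P x) ∈ U) (hid : ∀ x ∈ U, Q (P x) = x)
    (hG : ∀ x ∈ U, G x ∈ U) :
    LinearMap.trace K U (G.restrict hG) = LinearMap.trace K V (G * Q * P) := by
  have h3 : ∀ x, (G * Q * P) x ∈ U := fun x => hG _ (hQ x)
  rw [← LinearMap.trace_restrict_eq_of_forall_mem U (G * Q * P) h3]
  congr 1
  apply LinearMap.ext
  intro x
  apply Subtype.ext
  change G x = G (Q (P x))
  rw [hid x x.2]

end Lin

section Frob

variable {k : Type u} [Field k] {𝒱 : VarClass k} {ops : CycleOps 𝒱} {X : 𝒱.Obj}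
  {W : WeilCohomology.{u, v} ops} {f : X ⟶ X} {q : ℕ}

lemma frobCyc (hF : FrobeniusOnCycles W (X.prod X) (squareMap f) q) {j : ℕ}
    {z : (X.prod X).Cycles} (hz : (X.prod X).IsCyc j z) :
    ∃ m ≥ 1, ∀ e, W.map (squareMap (iter f (m * e))) (W.cl _ z) =
      (q : W.K) ^ (m * e * j) • W.cl _ z := by
  obtain ⟨m, hm, h⟩ := hF j z hz
  refine ⟨m, hm, fun e => ?_⟩
  rw [cl_pull_iter] at h
  rw [← map_squareMap_pow]
  exact pow_mul_smul h e

/-- A class of top degree with nonzero orientation. -/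
lemma exists_top' (h1 : (1 : W.H X) ≠ 0) : ∃ b ∈ W.gr X (2 * X.dim), W.tr X b ≠ 0 := by
  have hex : ∃ b, W.tr X (1 * b) ≠ 0 := by
    by_contra hno
    push Not at hno
    exact h1 (W.nondeg 1 hno)
  obtain ⟨b, hb⟩ := hex
  refine ⟨proj (W.isInternal X) (2 * X.dim) b, proj_mem _ _ b, ?_⟩
  have h2 := adj_proj (W := W) (X := X) (i := 0) (j := 2 * X.dim) (by omega) 1 b
  rw [proj_same _ (W.one_mem X), one_mul, one_mul] at h2
  rw [one_mul] at hb
  rwa [← h2]

/-- The degree of an endomorphism. -/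
lemma exists_degree (h1 : (1 : W.H X) ≠ 0) (φ : X ⟶ X) :
    ∃ δ : W.K, ∀ a, W.tr X (W.map φ a) = δ * W.tr X a := by
  obtain ⟨b, hb, hb0⟩ := exists_top' h1
  set δ := W.tr X (W.map φ b) * (W.tr X b)⁻¹ with hδ
  refine ⟨δ, fun a => ?_⟩
  apply tr_map_of_top hb hb0
  rw [← sub_eq_zero]
  apply eq_zero_of_top
  · exact Submodule.sub_mem _ (W.map_mem φ hb) (Submodule.smul_mem _ _ hb)
  · rw [map_sub, map_smul, smul_eq_mul, hδ, mul_assoc, inv_mul_cancel₀ hb0, mul_one, sub_self]

/-- The orientation and the powers of the endomorphism. -/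
lemma exists_tr_pow (hF : FrobeniusOnCycles W (X.prod X) (squareMap f) q) :
    ∃ m ≥ 1, ∀ e, ∀ a, W.tr X (W.map (iter f (m * e)) a) =
      (q : W.K) ^ (m * e * X.dim) * W.tr X a := by
  by_cases h1 : (1 : W.H X) = 0
  · refine ⟨1, le_rfl, fun e a => ?_⟩
    have h2 : a = 0 := by rw [← one_mul a, h1, zero_mul]
    rw [h2, map_zero, map_zero, mul_zero]
  obtain ⟨z, hz, hz1⟩ : ∃ z, (X.prod X).IsCyc X.dim z ∧ W.corr (W.cl _ z) = 1 := by
    rcases (Realized.one : Realized.{u, v} ops X 0 (fun _ => 1)) with ⟨p, hp, z, hz, h⟩ | ⟨hd, _⟩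
    · obtain rfl : p = X.dim := by omega
      exact ⟨z, hz, (h W).symm⟩
    · omega
  obtain ⟨m, hm, h⟩ := frobCyc hF hz
  refine ⟨m, hm, fun e a => ?_⟩
  obtain ⟨δ, hδ⟩ := exists_degree h1 (iter f (m * e))
  have h2 := corr_squareMap hδ (W.cl _ z) 1
  rw [h e, corr_smul, map_one, hz1, LinearMap.smul_apply, Module.End.one_apply, map_one] at h2
  have h3 : ((q : W.K) ^ (m * e * X.dim) - δ) • (1 : W.H X) = 0 := by
    rw [sub_smul, h2, sub_self]
  rcases smul_eq_zero.1 h3 with h4 | h4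
  · rw [sub_eq_zero.1 h4]
    exact hδ a
  · exact absurd h4 h1

lemma map_iter_eq (m : ℕ) : (W.map (iter f m)).toLinearMap = (W.map f).toLinearMap ^ m :=
  LinearMap.ext fun a => map_iter f m a

/-- Correspondences of degree zero commute with the powers of the endomorphism. -/
lemma exists_commute (hq : 1 < q) (hF : FrobeniusOnCycles W (X.prod X) (squareMap f) q)
    {z : (X.prod X).Cycles} (hz : (X.prod X).IsCyc X.dim z) :
    ∃ m ≥ 1, ∀ e, Commute (W.corr (W.cl _ z)) ((W.map f).toLinearMap ^ (m * e)) := by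
  obtain ⟨m₁, hm₁, h1⟩ := exists_tr_pow hF
  obtain ⟨m₂, hm₂, h2⟩ := frobCyc hF hz
  refine ⟨m₁ * m₂, Nat.mul_pos hm₁ hm₂, fun e => ?_⟩
  have h3 : ∀ a, W.tr X (W.map (iter f (m₁ * m₂ * e)) a) =
      (q : W.K) ^ (m₁ * m₂ * e * X.dim) * W.tr X a := by
    rw [mul_assoc m₁]
    exact h1 (m₂ * e)
  have h4 : W.map (squareMap (iter f (m₁ * m₂ * e))) (W.cl _ z) =
      (q : W.K) ^ (m₁ * m₂ * e * X.dim) • W.cl _ z := by
    rw [mul_comm m₁, mul_assoc m₂]
    exact h2 (m₁ * e)
  have hq0 : (q : W.K) ^ (m₁ * m₂ * e * X.dim) ≠ 0 :=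
    pow_ne_zero _ (by exact_mod_cast (by omega : q ≠ 0))
  rw [← map_iter_eq]
  apply LinearMap.ext
  intro a
  have h5 := corr_squareMap h3 (W.cl _ z) a
  rw [h4, corr_smul, LinearMap.smul_apply] at h5
  exact smul_right_injective _ hq0 h5

/-- The class of a divisor and the powers of the endomorphism. -/
lemma exists_div (hF : FrobeniusOnCycles W (X.prod X) (squareMap f) q)
    {z : (X.prod X).Cycles} (hz : (X.prod X).IsCyc 1 z) {η : W.H X}
    (hη : W.cl _ z = W.map (fst X X) η) :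
    ∃ m ≥ 1, ∀ e, W.map (iter f (m * e)) η = (q : W.K) ^ (m * e) • η := by
  by_cases h1 : (1 : W.H X) = 0
  · refine ⟨1, le_rfl, fun e => ?_⟩
    have h2 : η = 0 := by rw [← one_mul η, h1, zero_mul]
    rw [h2, map_zero, smul_zero]
  obtain ⟨b, hb, hb0⟩ := exists_top' h1
  obtain ⟨m, hm, h⟩ := frobCyc hF hz
  refine ⟨m, hm, fun e => ?_⟩
  have h2 := h e
  rw [hη, mul_one] at h2
  exact map_eq_of_fst h2 ⟨b, hb0⟩

end Frob

end Pool.Agent.K4H38.SY
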