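import Pool.Agent.K4H38.SY.Frob

/-!
# The symmetric maximal factor
-/

open CategoryTheory AlgebraicGeometry Finset Polynomial

set_option linter.unusedSectionVars false

universe u₁ v₁ u v

namespace Pool.Agent.K4H38.SY

open Pool.Agent.H914 Pool.Agent.H447 Pool.Agent.W537 Pool.Agent.Y106.One Pool.Agent.R907
  VarClass Obj WeilCohomology

section Form

variable {k : Type u} [Field k] {𝒱 : VarClass k} {ops : CycleOps 𝒱} {X : 𝒱.Obj}
  {W : WeilCohomology.{u, v} ops} {i : ℕ}

/-- The form `tr(a · ζ · b)`. -/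
noncomputable def form (W : WeilCohomology.{u, v} ops) {X : 𝒱.Obj} (ζ : W.H X)
    (U : Submodule W.K (W.H X)) : LinearMap.BilinForm W.K U :=
  LinearMap.mk₂ W.K (fun a b => W.tr X (a * (ζ * b)))
    (fun a a' b => by
      change W.tr X (((a : W.H X) + a') * (ζ * b)) = _
      rw [add_mul, map_add])
    (fun c a b => by
      change W.tr X ((c • (a : W.H X)) * (ζ * b)) = _
      rw [smul_mul_assoc, map_smul])
    (fun a b b' => by
      change W.tr X ((a : W.H X) * (ζ * ((b : W.H X) + b'))) = _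
      rw [mul_add, mul_add, map_add])
    (fun c a b => by
      change W.tr X ((a : W.H X) * (ζ * (c • (b : W.H X)))) = _
      rw [mul_smul_comm, mul_smul_comm, map_smul])

lemma form_apply (ζ : W.H X) (U : Submodule W.K (W.H X)) (a b : U) :
    form W ζ U a b = W.tr X ((a : W.H X) * (ζ * b)) := rfl

/-- A nonzero class is detected by the classes of the complementary degree. -/
lemma eq_zero_of_gr {ζ a : W.H X} (hi : i ≤ X.dim) (hζ : ζ ∈ W.gr X (2 * (X.dim - i)))
    (ha : a ∈ W.gr X i) (h : ∀ b ∈ W.gr X i, W.tr X (b * (ζ * a)) = 0) : ζ * a = 0 := by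
  apply nondeg_right (W := W)
  intro b
  refine gr_induction (W.isInternal X) (p := fun b => W.tr X (b * (ζ * a)) = 0) ?_ ?_ b
  · intro j b hb
    by_cases hj : j = i
    · subst hj
      exact h b hb
    · exact W.tr_eq_zero (W.mul_mem hb (W.mul_mem hζ ha)) (by omega)
  · intro b b' hb hb'
    rw [add_mul, map_add, hb, hb', add_zero]

/-- Nondegeneracy on the image of a self-adjoint idempotent. -/
lemma nondeg_image {ζ : W.H X} (hi : i ≤ X.dim) (hζ : ζ ∈ W.gr X (2 * (X.dim - i)))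
    {C E : Module.End W.K (W.H X)} (hE : ∀ a ∈ W.gr X i, E a = C (ζ * a))
    (hmem : ∀ a ∈ W.gr X i, E a ∈ W.gr X i) (hid : ∀ a ∈ W.gr X i, E (E a) = E a)
    (hsym : ∀ a ∈ W.gr X i, ∀ b ∈ W.gr X i, W.tr X (E a * (ζ * b)) = W.tr X (a * (ζ * E b)))
    (a : (W.gr X i).map E) (h : ∀ c, form W ζ _ c a = 0) : a = 0 := by
  obtain ⟨a, a', ha', rfl⟩ := a
  have hz : ζ * E a' = 0 := by
    refine eq_zero_of_gr hi hζ (hmem _ ha') fun b hb => ?_
    have h1 := h ⟨E b, b, hb, rfl⟩
    rw [form_apply] at h1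
    have h2 : W.tr X (E b * (ζ * E a')) = 0 := h1
    rw [hsym _ hb _ (hmem _ ha'), hid _ ha'] at h2
    exact h2
  apply Subtype.ext
  change E a' = 0
  rw [← hid _ ha', hE _ (hmem _ ha'), hz, map_zero]

/-- In odd degrees the form is alternating. -/
lemma form_alt {ζ : W.H X} (hodd : Odd i) {p : ℕ} (hζ : ζ ∈ W.gr X (2 * p))
    {a b : W.H X} (ha : a ∈ W.gr X i) (hb : b ∈ W.gr X i) :
    W.tr X (a * (ζ * b)) = - W.tr X (b * (ζ * a)) := by
  rw [← mul_assoc, ← W.even_comm hζ a, mul_assoc, W.comm ha hb, ← mul_assoc b,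
    ← W.even_comm hζ b, mul_assoc, mul_smul_comm, map_smul, (hodd.mul hodd).neg_one_pow,
    neg_one_smul]

end Form

variable {k : Type u} [Field k] {𝒱 : VarClass k} {ops : CycleOps 𝒱} {X : 𝒱.Obj}
  {W W' : WeilCohomology.{u, v} ops} {i : ℕ}
  {k₀ : Type u₁} [Field k₀] {𝒱₀ : VarClass k₀} {ops₀ : CycleOps 𝒱₀}

/-- **Maximal partial inverses from a unit.** -/
theorem maximalPartial_of_unit (R : Reduction X 𝒱₀) {D : X.Cycles} (hD : X.IsCyc 1 D)
    (hi : i ≤ X.dim) {W₁ : WeilCohomology.{u, v} ops} (hW₁ : Reduction.Pure.{u₁, v₁} R ops₀ W₁)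
    {E : Fam.{u, v} ops X} {z : (X.prod X).Cycles} (hz : (X.prod X).IsCyc i z)
    (hEz : ∀ W : WeilCohomology.{u, v} ops, E W = W.corr (W.cl _ z) * LL D W ^ (X.dim - i))
    (hE : ∀ W' : WeilCohomology.{u, v} ops, SameTraces X i W₁ W' →
      IsUnit' (lefIdeal.{u, v} ops X D i) i E W') :
    ∃ r : ℕ, MaximalPartialInverse.{u, v} (ops := ops) (Reduction.Pure.{u₁, v₁} R ops₀) X D i z r ∧
      ∀ W : WeilCohomology.{u, v} ops, Reduction.Pure.{u₁, v₁} R ops₀ W →
        (OneCycleForAll.{u, v} (ops := ops) (Reduction.Pure.{u₁, v₁} R ops₀) X D i ↔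
          r = W.betti X i) := by
  have hJ := lefIdeal_isLeftIdeal.{u, v} (ops := ops) hD hi
  have hEJ : E ∈ lefIdeal.{u, v} ops X D i := ⟨z, hz, hEz⟩
  have hEr := hJ.real E hEJ
  have hEz' : ∀ W : WeilCohomology.{u, v} ops, corrLef W X D i (W.cl _ z) = E W := by
    intro W
    rw [corrLef_eq, hEz]
  have hu : ∀ W : WeilCohomology.{u, v} ops, Reduction.Pure.{u₁, v₁} R ops₀ W →
      IsUnit' (lefIdeal.{u, v} ops X D i) i E W :=
    fun W hW => hE W (sameTraces_of_reduction R hW₁ hW i)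
  set r := Module.finrank W₁.K ((W₁.gr X i).map (E W₁)) with hr
  have hrank : ∀ W : WeilCohomology.{u, v} ops, Reduction.Pure.{u₁, v₁} R ops₀ W →
      Module.finrank W.K ((W.gr X i).map (E W)) = r := fun W hW =>
    finrank_eq_of_same hEr (sameTraces_of_reduction R hW₁ hW i) (hu W₁ hW₁).idem (hu W hW).idem
  have hbound : ∀ W : WeilCohomology.{u, v} ops, Reduction.Pure.{u₁, v₁} R ops₀ W →
      BoundsInverses W X D i r := by
    intro W hW γ hγ
    obtain ⟨m, hm⟩ := rank_le_of_trace_zero (i := i) (W := W) hEr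
      (KJ_le_span hJ (corrLef_mem (D := D) hγ))
      (fun g hg => (hu W hW).trace_zero hJ (corrLef_mem hγ) hg)
    exact ⟨m, hm.trans (hrank W hW).le⟩
  refine ⟨r, ⟨hz, fun W hW => ⟨⟨?_, ?_⟩, hbound W hW⟩⟩, fun W hW => ⟨?_, ?_⟩⟩
  · rw [hEz']
    exact (hu W hW).idem
  · rw [hEz']
    exact hrank W hW
  · rintro ⟨z', hz'⟩
    have h1 := (inverts_iff hD W hi).1 (hz' W hW)
    have h2 : ∀ a ∈ W.gr X i, corrLef W X D i (W.cl _ z') a = a := by
      intro a ha
      rw [corrLef_eq]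
      exact h1.2 a (by rwa [show X.dim - (X.dim - i) = i by omega])
    obtain ⟨m, hm⟩ := hbound W hW (W.cl _ z') (Submodule.subset_span ⟨i, rfl, z', h1.1, rfl⟩)
    have h3 : ∀ m : ℕ, (W.gr X i).map (corrLef W X D i (W.cl _ z') ^ m) = W.gr X i := by
      intro m
      have h4 : ∀ a ∈ W.gr X i, (corrLef W X D i (W.cl _ z') ^ m) a = a := by
        intro a ha
        induction m with
        | zero => rfl
        | succ m ih => rw [pow_succ, Module.End.mul_apply, h2 a ha, ih]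
      apply le_antisymm
      · rintro _ ⟨a, ha, rfl⟩
        rw [h4 a ha]
        exact ha
      · intro a ha
        exact ⟨a, ha, h4 a ha⟩
    rw [h3] at hm
    apply le_antisymm _ hm
    rw [← hrank W hW]
    exact Submodule.finrank_map_le _ _
  · intro h
    have key : ∀ W' : WeilCohomology.{u, v} ops, Reduction.Pure.{u₁, v₁} R ops₀ W' →
        ∀ a ∈ W'.gr X i, E W' a = a := by
      intro W' hW' a ha
      have hb : r = W'.betti X i := by
        rw [h, betti_eq_of_same (sameTraces_of_reduction R hW hW' i)]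
      have hle : (W'.gr X i).map (E W') ≤ W'.gr X i := by
        rintro _ ⟨b, hb, rfl⟩
        exact real_mem hEr W' hb
      have heq : (W'.gr X i).map (E W') = W'.gr X i := by
        apply Submodule.eq_of_le_of_finrank_eq hle
        rw [hrank W' hW', hb]
        rfl
      rw [← heq] at ha
      obtain ⟨b, hb, rfl⟩ := ha
      exact (hu W' hW').idem b hb
    exact oneCycle_of_common hD hi ⟨z, hz, hEz⟩ key

lemma LL_pow_apply (D : X.Cycles) (m : ℕ) (a : W.H X) :
    (LL D W ^ m) a = W.cl X D ^ m * a := by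
  rw [LinearMap.pow_mulLeft]
  rfl

lemma cl_pow_mem {D : X.Cycles} (hD : X.IsCyc 1 D) (m : ℕ) : W.cl X D ^ m ∈ W.gr X (2 * m) := by
  induction m with
  | zero => simpa using W.one_mem X
  | succ m ih =>
    have h1 := W.mul_mem ih (W.cl_mem hD)
    rwa [← pow_succ, show 2 * m + 2 * 1 = 2 * (m + 1) by ring] at h1

lemma lefPow_apply (D : X.Cycles) (m : ℕ) (a : W.H X) :
    lefPow W X D m a = W.cl X D ^ m * a := rfl

/-- **The symmetric maximal factor**, without Frobenius. -/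
theorem exists_symmetricFactor (R : Reduction X 𝒱₀) {D : X.Cycles} (hD : X.IsCyc 1 D)
    (hi : i ≤ X.dim) : ∃ (z : (X.prod X).Cycles) (r : ℕ),
      MaximalPartialInverse.{u, v} (ops := ops) (Reduction.Pure.{u₁, v₁} R ops₀) X D i z r ∧
      (∀ W : WeilCohomology.{u, v} ops, Reduction.Pure.{u₁, v₁} R ops₀ W →
        (OneCycleForAll.{u, v} (ops := ops) (Reduction.Pure.{u₁, v₁} R ops₀) X D i ↔
          r = W.betti X i)) ∧
      (∀ W : WeilCohomology.{u, v} ops, Reduction.Pure.{u₁, v₁} R ops₀ W →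
        SelfAdjointOn (W.gr X i) (W.tr X) (lefPow W X D (X.dim - i))
          (corrLef W X D i (W.cl _ z))) ∧
      (Odd i → Even r ∧ ∀ W : WeilCohomology.{u, v} ops, Reduction.Pure.{u₁, v₁} R ops₀ W →
        InjectsOn (W.gr X i) (lefPow W X D (X.dim - i)) → Even (W.betti X i)) := by
  by_cases hex : ∃ W : WeilCohomology.{u, v} ops, Reduction.Pure.{u₁, v₁} R ops₀ W
  swap
  · push Not at hex
    exact ⟨0, 0, ⟨SmVar.IsCyc.zero _ _, fun W hW => absurd hW (hex W)⟩,
      fun W hW => absurd hW (hex W), fun W hW => absurd hW (hex W),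
      fun _ => ⟨Even.zero, fun W hW => absurd hW (hex W)⟩⟩
  obtain ⟨W₁, hW₁⟩ := hex
  have hJ := lefIdeal_isLeftIdeal.{u, v} (ops := ops) hD hi
  obtain ⟨E, ⟨z, hz, hEz⟩, hsym, hE⟩ :=
    exists_symmetric hD hi (sameTraces_of_reduction R hW₁ hW₁ i)
  obtain ⟨r, h1, h2⟩ := maximalPartial_of_unit R hD hi hW₁ hz hEz hE
  have hEr := hJ.real E ⟨z, hz, hEz⟩
  have hEz' : ∀ W : WeilCohomology.{u, v} ops, corrLef W X D i (W.cl _ z) = E W := by
    intro W
    rw [corrLef_eq, hEz]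
  have hself : ∀ (W : WeilCohomology.{u, v} ops) (a b : W.H X),
      W.tr X (E W a * (W.cl X D ^ (X.dim - i) * b)) =
        W.tr X (a * (W.cl X D ^ (X.dim - i) * E W b)) := by
    intro W a b
    have h3 := hsym W a b
    rwa [LL_pow_apply, LL_pow_apply] at h3
  refine ⟨z, r, h1, h2, fun W hW => ?_, fun hodd => ⟨?_, fun W hW hinj => ?_⟩⟩
  · intro a _ b _
    rw [hEz', lefPow_apply, lefPow_apply]
    exact hself W a b
  · have h3 := (h1.2 W₁ hW₁).1
    rw [InvertsOnFactor, hEz'] at h3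
    rw [← h3.2]
    apply even_finrank (form W₁ (W₁.cl X D ^ (X.dim - i)) _)
    · rintro ⟨_, a, ha, rfl⟩ ⟨_, b, hb, rfl⟩
      exact form_alt hodd (cl_pow_mem hD _) (real_mem hEr W₁ ha) (real_mem hEr W₁ hb)
    · refine nondeg_image (C := W₁.corr (W₁.cl _ z)) hi (cl_pow_mem hD _) (fun a _ => ?_)
        (fun a ha => real_mem hEr W₁ ha) h3.1 (fun a _ b _ => hself W₁ a b)
      rw [hEz, Module.End.mul_apply, LL_pow_apply]
  · change Even (Module.finrank W.K (W.gr X i))
    apply even_finrank (form W (W.cl X D ^ (X.dim - i)) _)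
    · rintro ⟨a, ha⟩ ⟨b, hb⟩
      exact form_alt hodd (cl_pow_mem hD _) ha hb
    · rintro ⟨a, ha⟩ h4
      apply Subtype.ext
      refine hinj a ha ?_
      rw [lefPow_apply]
      exact eq_zero_of_gr hi (cl_pow_mem hD _) ha fun b hb => h4 ⟨b, hb⟩

end Pool.Agent.K4H38.SY
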