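import Pool.Agent.K4H38.SY.Adj

/-!
# The symmetric maximal idempotent
-/

open CategoryTheory AlgebraicGeometry Finset Polynomial

set_option linter.unusedSectionVars false

universe u₁ v₁ u v

namespace Pool.Agent.K4H38.SY

open Pool.Agent.H914 Pool.Agent.H447 Pool.Agent.W537 Pool.Agent.Y106.One Pool.Agent.R907
  VarClass Obj WeilCohomology

variable {k : Type u} [Field k] {𝒱 : VarClass k} {ops : CycleOps 𝒱} {X : 𝒱.Obj}
  {W W' : WeilCohomology.{u, v} ops} {J : Set (Fam.{u, v} ops X)} {i : ℕ}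

/-- The operator `T` is self-adjoint for the form `tr (a · ξ ^ (n - i) · b)`. -/
def Sym (D : X.Cycles) (i : ℕ) (W : WeilCohomology.{u, v} ops) (T : Module.End W.K (W.H X)) :
    Prop :=
  ∀ a b, W.tr X (T a * (LL D W ^ (X.dim - i)) b) = W.tr X (a * (LL D W ^ (X.dim - i)) (T b))

variable {D : X.Cycles}

lemma Sym.one : Sym D i W 1 := fun _ _ => rfl

lemma Sym.sub {S T : Module.End W.K (W.H X)} (hS : Sym D i W S) (hT : Sym D i W T) :
    Sym D i W (S - T) := by
  intro a b
  rw [LinearMap.sub_apply, sub_mul, map_sub, hS, hT, LinearMap.sub_apply, map_sub, mul_sub,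
    map_sub]

lemma Sym.pow {T : Module.End W.K (W.H X)} (hT : Sym D i W T) (m : ℕ) : Sym D i W (T ^ m) := by
  induction m with
  | zero => exact Sym.one
  | succ m ih =>
    intro a b
    rw [pow_succ', Module.End.mul_apply, hT, ih, ← Module.End.mul_apply (T ^ m), ← pow_succ,
      pow_succ']

/-- **The maximal idempotent from a unit for the traces.** -/
theorem maximal_of_unit (hJ : IsLeftIdeal J) (hT : SameTraces X i W W) {e : Fam.{u, v} ops X}
    (he : e ∈ J) (he1 : ∀ c ∈ J, LinearMap.trace W.K _ (e W * c W * proj (W.isInternal X) i) =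
      LinearMap.trace W.K _ (c W * proj (W.isInternal X) i)) :
    ∃ N : ℕ, (fun W => 1 - (1 - e W ^ N) ^ N) ∈ J ∧
      ∀ W' : WeilCohomology.{u, v} ops, SameTraces X i W W' →
        IsUnit' J i (fun W => 1 - (1 - e W ^ N) ^ N) W' := by
  have her := hJ.real e he
  set W₁ := W.betti X i with hW₁
  set N := W₁ + 1 with hN
  -- the unit property in the other theories
  have hunit : ∀ W' : WeilCohomology.{u, v} ops, SameTraces X i W W' → ∀ c ∈ J,
      LinearMap.trace W'.K _ (e W' * c W' * proj (W'.isInternal X) i) =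
      LinearMap.trace W'.K _ (c W' * proj (W'.isInternal X) i) := by
    intro W' hW' c hc
    exact trace_eq_of_same hW' ((her.mul (hJ.real c hc)).cast (zero_add 0)) (hJ.real c hc)
      (he1 c hc)
  -- powers
  have hpow : ∀ W' : WeilCohomology.{u, v} ops, SameTraces X i W W' → ∀ m : ℕ, ∀ c ∈ J,
      LinearMap.trace W'.K _ (e W' ^ m * c W' * proj (W'.isInternal X) i) =
      LinearMap.trace W'.K _ (c W' * proj (W'.isInternal X) i) := by
    intro W' hW' m
    induction m with
    | zero => intro c _; rw [pow_zero, one_mul]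
    | succ m ih =>
      intro c hc
      rw [pow_succ, mul_assoc (e W' ^ m)]
      rw [ih _ (hJ.left e her c hc)]
      exact hunit W' hW' c hc
  -- nilpotency of `e (1 - e)`
  set d : Fam.{u, v} ops X := fun W => e W * (1 - e W) with hd
  have hdr : Realized ops X 0 d := (her.mul (Realized.one.sub her)).cast (zero_add 0)
  have hd0 : ∀ b : Fam.{u, v} ops X, Realized ops X 0 b →
      LinearMap.trace W.K _ (d W * b W * proj (W.isInternal X) i) = 0 := by
    intro b hb
    set P := proj (W.isInternal X) i with hP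
    have hbe : (fun W => b W * e W) ∈ J := hJ.left b hb e he
    have h1 := he1 _ hbe
    beta_reduce at h1
    have hPe : P * e W = e W * P := real_comm her W i
    have h2 : LinearMap.trace W.K _ (d W * b W * P) =
        LinearMap.trace W.K _ ((1 - e W) * (b W * e W) * P) := by
      rw [hd]
      beta_reduce
      rw [mul_assoc (e W), mul_assoc (e W), LinearMap.trace_mul_comm]
      congr 1
      rw [mul_assoc ((1 - e W) * b W), hPe]
      simp only [mul_assoc]
    rw [h2, sub_mul, sub_mul, one_mul, map_sub, h1, sub_self]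
  have hez : Realized ops X 0 (fun W : WeilCohomology.{u, v} ops => 1 - d W) :=
    Realized.one.sub hdr
  have hzpow : ∀ r : ℕ, LinearMap.trace W.K (W.H X)
      (proj (W.isInternal X) i * (1 - d W) ^ r) = (W.betti X i : W.K) := by
    intro r
    induction r with
    | zero => rw [pow_zero, mul_one, trace_proj]; rfl
    | succ r ih =>
      have h3 := hd0 _ (hez.pow0 r)
      beta_reduce at h3
      rw [LinearMap.trace_mul_comm] at h3
      rw [pow_succ', sub_mul, one_mul, mul_sub, map_sub, h3, sub_zero, ih]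
  have hnil : ∀ W' : WeilCohomology.{u, v} ops, SameTraces X i W W' →
      ∀ a ∈ W'.gr X i, (d W' ^ N) a = 0 := by
    intro W' hW' a ha
    have h3 := unip_of_traces hW' hez (fun r => hzpow (r + 1)) a ha
    beta_reduce at h3
    rw [sub_sub_cancel] at h3
    rw [hN, pow_succ', Module.End.mul_apply, h3, map_zero]
  -- the idempotent
  set E : Fam.{u, v} ops X := fun W => 1 - (1 - e W ^ N) ^ N with hE
  have hEJ : E ∈ J := by
    have h1 : E = fun W => (∑ k ∈ range N, (1 - e W ^ N) ^ k) * e W ^ (W₁ + 1) := by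
      funext W'
      have := geom_sum_mul_neg (1 - e W' ^ N) N
      rw [sub_sub_cancel] at this
      rw [hE]
      beta_reduce
      rw [← this]
    rw [h1]
    exact hJ.left _ (Realized.sum fun k _ => (Realized.one.sub (her.pow0 N)).pow0 k) _
      (hJ.pow_succ he W₁)
  refine ⟨N, hEJ, fun W' hW' => ⟨fun a ha => ?_, fun c hc => ?_⟩⟩
  · have hdvd : ((Polynomial.X : W'.K[X]) * (1 - Polynomial.X)) ^ N ∣
        (1 - (1 - Polynomial.X ^ N) ^ N) * (1 - Polynomial.X ^ N) ^ N := by
      rw [mul_pow]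
      apply mul_dvd_mul
      · have h1 := sub_dvd_pow_sub_pow (1 : W'.K[X]) (1 - Polynomial.X ^ N) N
        rwa [one_pow, sub_sub_cancel] at h1
      · apply pow_dvd_pow_of_dvd
        have h1 := sub_dvd_pow_sub_pow (1 : W'.K[X]) Polynomial.X N
        rwa [one_pow] at h1
    obtain ⟨q, hq⟩ := hdvd
    have h1 := congrArg (aeval (e W')) hq
    simp only [map_mul, map_pow, map_sub, map_one, aeval_X] at h1
    have h2 : (E W' * (1 - E W')) a = 0 := by
      rw [hE]
      beta_reduce
      rw [sub_sub_cancel, h1]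
      have h3 : (e W' * (1 - e W')) ^ N * (aeval (e W')) q =
          (aeval (e W')) q * d W' ^ N := by
        have h4 : d W' = aeval (e W') (Polynomial.X * (1 - Polynomial.X) : W'.K[X]) := by
          simp [hd]
        rw [hd]
        beta_reduce
        have h5 : e W' * (1 - e W') = aeval (e W') (Polynomial.X * (1 - Polynomial.X) : W'.K[X]) := by simp
        rw [h5, ← map_pow, ← map_mul, ← map_mul, mul_comm]
      rw [h3, Module.End.mul_apply, hnil W' hW' a ha, map_zero]
    rw [mul_sub, mul_one, LinearMap.sub_apply, Module.End.mul_apply, sub_eq_zero] at h2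
    exact h2.symm
  · rw [sub_mul, sub_mul, one_mul, map_sub]
    have hc' : (fun W => (1 - e W ^ N) ^ W₁ * c W) ∈ J :=
      hJ.left _ ((Realized.one.sub (her.pow0 N)).pow0 W₁) c hc
    have h1 := hpow W' hW' N _ hc'
    beta_reduce at h1
    have h2 : (1 - e W' ^ N) ^ N * c W' = (1 - e W' ^ N) ^ W₁ * c W' -
        e W' ^ N * ((1 - e W' ^ N) ^ W₁ * c W') := by
      have h3 : (1 - e W' ^ N) ^ N = (1 - e W' ^ N) * (1 - e W' ^ N) ^ W₁ := pow_succ' _ _
      rw [h3, sub_mul, one_mul, sub_mul, mul_assoc]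
    rw [h2, sub_mul, map_sub, h1, sub_self, sub_zero]

/-- The left ideal of the operators `z ∘ ξ ^ (n - i)` contains a symmetric unit for the traces. -/
theorem exists_symmetric_unit (hD : X.IsCyc 1 D) (hi : i ≤ X.dim) (hT : SameTraces X i W W) :
    ∃ e ∈ lefIdeal.{u, v} ops X D i,
      (∀ c ∈ lefIdeal.{u, v} ops X D i,
        LinearMap.trace W.K _ (e W * c W * proj (W.isInternal X) i) =
          LinearMap.trace W.K _ (c W * proj (W.isInternal X) i)) ∧
      ∀ W' : WeilCohomology.{u, v} ops, Sym D i W' (e W') := by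
  have hJ := lefIdeal_isLeftIdeal.{u, v} (ops := ops) hD hi
  obtain ⟨e₀, he₀, hunit⟩ := exists_unit hJ hT
  obtain ⟨z, hz, hez⟩ := he₀
  set L : Fam.{u, v} ops X := fun W => LL D W ^ (X.dim - i) with hL
  have hztm : (X.prod X).IsCyc i (ops.pull (swap X X) z) := ops.pull_mem _ hz
  -- the transposed operators
  set e₁ : Fam.{u, v} ops X := fun W =>
    W.corr (W.cl _ (ops.pull (swap X X) z)) * LL D W ^ (X.dim - i) with he₁
  have he₁J : e₁ ∈ lefIdeal.{u, v} ops X D i := ⟨_, hztm, fun _ => rfl⟩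
  have he₀J : e₀ ∈ lefIdeal.{u, v} ops X D i := ⟨z, hz, hez⟩
  set P := proj (W.isInternal X) i with hP
  have hunit₁ : ∀ c ∈ lefIdeal.{u, v} ops X D i,
      LinearMap.trace W.K _ (e₁ W * c W * P) = LinearMap.trace W.K _ (c W * P) := by
    intro c hcJ
    obtain ⟨y, hy, hcy⟩ := hcJ
    set c₁ : Fam.{u, v} ops X := fun W =>
      W.corr (W.cl _ (ops.pull (swap X X) y)) * LL D W ^ (X.dim - i) with hc₁
    have hc₁J : c₁ ∈ lefIdeal.{u, v} ops X D i := ⟨_, ops.pull_mem _ hy, fun _ => rfl⟩
    have h1 : LinearMap.trace W.K _ (e₁ W * c W * P) = LinearMap.trace W.K _ (c₁ W * e₀ W * P) := by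
      rw [he₁, hc₁, hcy, hez]
      beta_reduce
      rw [W.cl_pull, W.cl_pull]
      exact trace_swap hD hi (W.cl_mem hz) (W.cl_mem hy)
    have hPe : P * c₁ W = c₁ W * P := real_comm (hJ.real c₁ hc₁J) W i
    have h2 : LinearMap.trace W.K _ (c₁ W * e₀ W * P) =
        LinearMap.trace W.K _ (e₀ W * c₁ W * P) := by
      rw [mul_assoc, LinearMap.trace_mul_comm, mul_assoc, hPe, ← mul_assoc]
    rw [h1, h2, hunit c₁ hc₁J, hcy, hc₁]
    beta_reduce
    rw [W.cl_pull]
    exact trace_swap_one hD hi (W.cl_mem hy)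
  refine ⟨fun W => ((1 / 2 : ℚ) : W.K) • (e₀ W + e₁ W),
    hJ.smul _ _ (hJ.add _ he₀J _ he₁J), fun c hc => ?_, fun W' a b => ?_⟩
  · beta_reduce
    rw [smul_mul_assoc, smul_mul_assoc, map_smul, add_mul, add_mul, map_add, hunit c hc,
      hunit₁ c hc, smul_eq_mul]
    push_cast
    ring
  · have hL' : Adj W' (LL D W' ^ (X.dim - i)) (LL D W' ^ (X.dim - i)) := (adj_LL hD).pow _
    have h1 : ∀ a b, W'.tr X (e₀ W' a * (LL D W' ^ (X.dim - i)) b) =
        W'.tr X (a * (LL D W' ^ (X.dim - i)) (e₁ W' b)) := by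
      intro a b
      rw [hez, he₁]
      beta_reduce
      rw [W'.cl_pull, Module.End.mul_apply, adj_corr (W'.cl_mem hz), hL']
      rfl
    have h2 : ∀ a b, W'.tr X (e₁ W' a * (LL D W' ^ (X.dim - i)) b) =
        W'.tr X (a * (LL D W' ^ (X.dim - i)) (e₀ W' b)) := by
      intro a b
      have hsw := adj_corr (W := W') (W'.map_mem (swap X X) (W'.cl_mem hz))
      rw [swap_swap] at hsw
      rw [hez, he₁]
      beta_reduce
      rw [W'.cl_pull, Module.End.mul_apply, hsw, hL']
      rfl
    beta_reduce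
    rw [LinearMap.smul_apply, LinearMap.smul_apply, smul_mul_assoc, map_smul, map_smul,
      mul_smul_comm, map_smul, LinearMap.add_apply, LinearMap.add_apply, add_mul, map_add, h1, h2,
      map_add, mul_add, map_add, add_comm]

/-- **The symmetric maximal idempotent.** -/
theorem exists_symmetric (hD : X.IsCyc 1 D) (hi : i ≤ X.dim) (hT : SameTraces X i W W) :
    ∃ E ∈ lefIdeal.{u, v} ops X D i, (∀ W' : WeilCohomology.{u, v} ops, Sym D i W' (E W')) ∧
      ∀ W' : WeilCohomology.{u, v} ops, SameTraces X i W W' →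
        IsUnit' (lefIdeal.{u, v} ops X D i) i E W' := by
  have hJ := lefIdeal_isLeftIdeal.{u, v} (ops := ops) hD hi
  obtain ⟨e, he, h1, h2⟩ := exists_symmetric_unit hD hi hT
  obtain ⟨N, h3, h4⟩ := maximal_of_unit hJ hT he h1
  exact ⟨_, h3, fun W' => Sym.one.sub ((Sym.one.sub ((h2 W').pow N)).pow N), h4⟩

end Pool.Agent.K4H38.SY
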